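import Mathlib

set_option autoImplicit false

namespace Pool.Agent.Results.MP_b87ef1_co.EvenCx

theorem result : ¬ ∀ n : ℕ, 0 < n → Even n → ∀ F : Finset (Finset (Fin n)),
    (∀ A ∈ F, ∀ B ∈ F, ∀ C ∈ F, A ≠ B → A ≠ C → B ≠ C → A ∪ B ≠ C ∧ A ∩ B ≠ C) →
    F.card ≤ n.choose (n / 2) + 1 := by
  intro h
  have := h 6 (by norm_num) (by decide) ([{0, 1}, {0, 2}, {1, 2}, {0, 3}, {1, 3}, {2, 3}, {4}, {0, 1, 2, 4}, {0, 1, 3, 4}, {0, 2, 3, 4}, {1, 2, 3, 4}, {0, 5}, {1, 5}, {2, 5}, {3, 5}, {0, 1, 2, 3, 5}, {0, 1, 4, 5}, {0, 2, 4, 5}, {1, 2, 4, 5}, {0, 3, 4, 5}, {1, 3, 4, 5}, {2, 3, 4, 5}] : List (Finset (Fin 6))).toFinset (by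
    simp only [List.mem_toFinset]
    decide +kernel)
  revert this
  decide +kernel

end Pool.Agent.Results.MP_b87ef1_co.EvenCx
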