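import Mathlib

set_option autoImplicit false

namespace Pool.Agent.Results.MP_b87ef1_co.OddCx
open Finset

theorem result : ¬ ∀ n : ℕ, Odd n → ∀ F : Finset (Finset (Fin n)),
    (∀ A ∈ F, ∀ B ∈ F, ∀ C ∈ F, A ≠ B → A ≠ C → B ≠ C → A ∪ B ≠ C ∧ A ∩ B ≠ C) →
    (F.card : ℚ) ≤ ((n : ℚ) + 1) / n * (n.choose ((n - 1) / 2) : ℚ) := by
  intro h
  have := h 7 (by decide) (powersetCard 2 univ ∪ powersetCard 5 univ) (by
    intro A hA B hB C hC hAB hAC hBC
    simp only [mem_union, mem_powersetCard, subset_univ, true_and] at hA hB hC
    have h1 := card_union_add_card_inter A B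
    have h2 : (A ∪ B).card ≤ 7 := by simpa using card_le_univ (A ∪ B)
    constructor
    · rintro rfl
      have h3 := card_lt_card (ssubset_of_ne_of_subset hAC subset_union_left)
      have h4 := card_lt_card (ssubset_of_ne_of_subset hBC subset_union_right)
      omega
    · rintro rfl
      have h3 := card_lt_card (ssubset_of_ne_of_subset hAC.symm inter_subset_left)
      have h4 := card_lt_card (ssubset_of_ne_of_subset hBC.symm inter_subset_right)
      omega)
  rw [card_union_of_disjoint (pairwise_disjoint_powersetCard _ (by norm_num))] at this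
  simp only [card_powersetCard, card_univ, Fintype.card_fin] at this
  norm_num [Nat.choose] at this

end Pool.Agent.Results.MP_b87ef1_co.OddCx
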